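import Pool.Agent.H5.Dem.Stmts

/-!
# Module GRP of project DEM: the pro-2 group with one relation exists
-/

set_option autoImplicit false

namespace Pool.Agent.H5.Dem

namespace GRPaux

/-- The free group on three generators. -/
abbrev F3 : Type := FreeGroup (Fin 3)

/-- The relator. -/
def r3 : F3 := rel (FreeGroup.of 0) (FreeGroup.of 1) (FreeGroup.of 2)

theorem map_rel {E E' : Type} [Group E] [Group E'] (f : E →* E') (a b c : E) :
    f (rel a b c) = rel (f a) (f b) (f c) := by
  simp [rel]

/-- Normal subgroups of index a power of 2 containing the relator. -/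
def I3 : Type := {N : Subgroup F3 // N.Normal ∧ (∃ k : ℕ, N.index = 2 ^ k) ∧ r3 ∈ N}

/-- The finite quotients. -/
def Q3 (N : I3) : Type := F3 ⧸ N.1

local instance instGroupQ3 (N : I3) : Group (Q3 N) :=
  haveI := N.2.1
  QuotientGroup.Quotient.group N.1

local instance instTopQ3 (N : I3) : TopologicalSpace (Q3 N) := ⊥

local instance instDiscQ3 (N : I3) : DiscreteTopology (Q3 N) := ⟨rfl⟩

theorem card_Q3 (N : I3) : ∃ k : ℕ, Nat.card (Q3 N) = 2 ^ k := N.2.2.1

local instance instFinQ3 (N : I3) : Finite (Q3 N) := by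
  obtain ⟨k, hk⟩ := card_Q3 N
  exact Nat.finite_of_card_ne_zero (by rw [hk]; positivity)

/-- The quotient map. -/
def q3 (N : I3) : F3 →* Q3 N :=
  haveI := N.2.1
  QuotientGroup.mk' N.1

theorem q3_r (N : I3) : q3 N r3 = 1 := by
  haveI := N.2.1
  exact (QuotientGroup.eq_one_iff (N := N.1) r3).2 N.2.2.2

/-- The product of all quotients. -/
abbrev P3 : Type := ∀ N : I3, Q3 N

/-- The map to the product. -/
def i3 : F3 →* P3 := MonoidHom.pi q3

/-- The pro-2 completion. -/
abbrev G3s : Subgroup P3 := i3.range.topologicalClosure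

/-- The map to the completion. -/
def j3 : F3 →* G3s where
  toFun w := ⟨i3 w, i3.range.le_topologicalClosure ⟨w, rfl⟩⟩
  map_one' := by ext1; simp
  map_mul' a b := by ext1; simp

theorem compact_G3 : CompactSpace G3s :=
  isCompact_iff_compactSpace.mp (i3.range.isClosed_topologicalClosure.isCompact)

theorem dense_j3 : closure (Set.range j3) = Set.univ := by
  apply Set.eq_univ_of_forall
  intro g
  rw [closure_subtype]
  have h1 : ((↑) : G3s → P3) '' (Set.range j3) = (i3.range : Set P3) := by
    ext v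
    constructor
    · rintro ⟨_, ⟨w, rfl⟩, rfl⟩
      exact ⟨w, rfl⟩
    · rintro ⟨w, rfl⟩
      exact ⟨_, ⟨w, rfl⟩, rfl⟩
  rw [h1]
  exact g.2

theorem index_G3 (U : Subgroup G3s) (hU : IsOpen (U : Set G3s)) : ∃ k : ℕ, U.index = 2 ^ k := by
  classical
  obtain ⟨V, hV, hVU⟩ := isOpen_induced_iff.1 hU
  have h1 : (1 : P3) ∈ V := by
    have : (1 : G3s) ∈ ((↑) : G3s → P3) ⁻¹' V := by
      rw [hVU]; exact U.one_mem
    exact this
  obtain ⟨J, u, hu, hJ⟩ := isOpen_pi_iff.1 hV 1 h1
  let π : G3s →* (∀ N : J, Q3 N.1) :=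
    { toFun := fun g N => g.1 N.1
      map_one' := rfl
      map_mul' := fun a b => rfl }
  have hle : π.ker ≤ U := by
    intro g hg
    have hg' : ∀ N : J, g.1 N.1 = 1 := fun N => congrFun (MonoidHom.mem_ker.1 hg) N
    have : g ∈ ((↑) : G3s → P3) ⁻¹' V := by
      apply hJ
      intro N hN
      have := hg' ⟨N, hN⟩
      have h2 := (hu N hN).2
      change g.1 N ∈ u N
      rw [show g.1 N = 1 from this]
      exact h2
    rw [hVU] at this
    exact this
  have hcard : ∃ k : ℕ, Nat.card (∀ N : J, Q3 N.1) = 2 ^ k := by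
    choose k hk using card_Q3
    refine ⟨∑ N : J, k N.1, ?_⟩
    rw [Nat.card_pi, ← Finset.prod_pow_eq_pow_sum]
    exact Finset.prod_congr rfl fun N _ => hk N.1
  obtain ⟨k, hk⟩ := hcard
  have h3 : U.index ∣ 2 ^ k := by
    refine (Subgroup.index_dvd_of_le hle).trans ?_
    rw [Subgroup.index_ker, ← hk]
    exact Subgroup.card_subgroup_dvd_card _
  obtain ⟨m, -, hm⟩ := (Nat.dvd_prime_pow Nat.prime_two).1 h3
  exact ⟨m, hm⟩

theorem isG : IsG G3s (j3 (FreeGroup.of 0)) (j3 (FreeGroup.of 1)) (j3 (FreeGroup.of 2)) where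
  proP :=
    { topGroup := inferInstance
      compact := compact_G3
      hausdorff := inferInstance
      disconnected := inferInstance
      index := fun U _ hU => index_G3 U hU }
  dense := by
    have h1 : Subgroup.closure {j3 (FreeGroup.of 0), j3 (FreeGroup.of 1), j3 (FreeGroup.of 2)} =
        j3.range := by
      apply le_antisymm
      · rw [Subgroup.closure_le]
        rintro g (rfl | rfl | rfl)
        · exact ⟨_, rfl⟩
        · exact ⟨_, rfl⟩
        · exact ⟨_, rfl⟩
      · rintro _ ⟨w, rfl⟩
        induction w using FreeGroup.induction_on with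
        | C1 => rw [map_one]; exact Subgroup.one_mem _
        | of i =>
          apply Subgroup.subset_closure
          fin_cases i
          · exact Or.inl rfl
          · exact Or.inr (Or.inl rfl)
          · exact Or.inr (Or.inr rfl)
        | inv_of i h => rw [map_inv]; exact Subgroup.inv_mem _ h
        | mul a b ha hb => rw [map_mul]; exact Subgroup.mul_mem _ ha hb
    rw [h1]
    exact dense_j3
  rel_eq := by
    rw [← map_rel]
    apply Subtype.ext
    funext N
    exact q3_r N
  up := by
    intro E _ _ hE a b c hr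
    let f0 : F3 →* E := FreeGroup.lift ![a, b, c]
    have f0a : f0 (FreeGroup.of 0) = a := by simp [f0]
    have f0b : f0 (FreeGroup.of 1) = b := by simp [f0]
    have f0c : f0 (FreeGroup.of 2) = c := by simp [f0]
    have hidx : ∃ k : ℕ, f0.ker.index = 2 ^ k := by
      haveI : Fact (Nat.Prime 2) := ⟨Nat.prime_two⟩
      obtain ⟨k, hk⟩ := IsPGroup.iff_card.1 hE
      have h3 : f0.ker.index ∣ 2 ^ k := by
        rw [Subgroup.index_ker, ← hk]
        exact Subgroup.card_subgroup_dvd_card _
      obtain ⟨m, -, hm⟩ := (Nat.dvd_prime_pow Nat.prime_two).1 h3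
      exact ⟨m, hm⟩
    let N : I3 := ⟨f0.ker, inferInstance, hidx, by
      rw [MonoidHom.mem_ker]
      change f0 (rel _ _ _) = 1
      rw [map_rel, f0a, f0b, f0c, hr]⟩
    let κ : Q3 N →* E := QuotientGroup.kerLift f0
    let pr : G3s →* Q3 N :=
      { toFun := fun g => g.1 N
        map_one' := rfl
        map_mul' := fun a b => rfl }
    have hpr : Continuous pr := (continuous_apply N).comp continuous_subtype_val
    refine ⟨κ.comp pr, ?_, ?_, ?_, ?_⟩
    · have : ((κ.comp pr).ker : Set G3s) = pr ⁻¹' {q | κ q = 1} := by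
        ext g
        simp [MonoidHom.mem_ker]
      rw [this]
      exact (isOpen_discrete _).preimage hpr
    · exact f0a
    · exact f0b
    · exact f0c

theorem exists_isG : GRPStmt :=
  ⟨G3s, inferInstance, inferInstance, _, _, _, isG⟩

end GRPaux

/-- Module GRP. -/
theorem grp : GRPStmt := GRPaux.exists_isG

end Pool.Agent.H5.Dem
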